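import Pool.Agent.Helper96.SE.Stmts

set_option autoImplicit false

/-!
# Module NAN (helper57): a tile forbids that both rows are in the state `true`
-/

namespace Pool.Agent.Helper96.SE

open Pool.Agent.Helper52.Grid

/-- horizontal costs in the rows `i`, `i + 1` of a tile, local coordinates -/
def nan_h (y x : ℕ) : ℕ := if y < 6 then hE .U y x else hE .L (y - 6) x

/-- vertical costs in the rows `i`, `i + 1` of a tile, local coordinates -/
def nan_v (i y x : ℕ) : ℕ := if y < 6 then vE .U i y x else vE .L (i + 1) (y - 6) x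

theorem nan_rkU {T : ℕ → Bool} {i : ℕ} (h : T i = true) : rk T i = .U := by
  unfold rk
  rw [if_pos h]

theorem nan_rkL {M : ℕ} {T : ℕ → Bool} {i : ℕ} (hV : VT M T) (h : T i = true) :
    rk T (i + 1) = .L := by
  unfold rk
  have h1 : ¬ T (i + 1) = true := by
    rw [hV.sep i h]
    simp
  have h2 : i + 1 ≠ 0 ∧ T (i + 1 - 1) = true := ⟨by omega, by simpa using h⟩
  rw [if_neg h1, if_pos h2]

theorem nan_hN {s : List Sub} {M : ℕ} {T : ℕ → Bool} (hV : VT M T) {i : ℕ} (h : T i = true)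
    (x y : ℕ) (hy : y < 12) :
    hN s M T (5 + 4 * s.length + x) (4 + 6 * i + y) = nan_h y x := by
  have hi := hV.lt i h
  unfold nan_h
  by_cases h6 : y < 6
  · rw [if_pos h6, hN_row (i := i) (r := y) (by omega) h6 rfl rfl, nan_rkU h]
  · rw [if_neg h6, hN_row (i := i + 1) (r := y - 6) (by omega) (by omega) rfl (by omega),
      nan_rkL hV h]

theorem nan_vN {s : List Sub} {M : ℕ} {T : ℕ → Bool} (hV : VT M T) {i : ℕ} (h : T i = true)
    (x y : ℕ) (hy : y < 12) :
    vN s M T (5 + 4 * s.length + x) (4 + 6 * i + y) = nan_v i y x := by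
  have hi := hV.lt i h
  unfold nan_v
  by_cases h6 : y < 6
  · rw [if_pos h6, vN_row (i := i) (r := y) (by omega) h6 rfl rfl, nan_rkU h]
  · rw [if_neg h6, vN_row (i := i + 1) (r := y - 6) (by omega) (by omega) rfl (by omega),
      nan_rkL hV h]

/-- the facts about the used edges in local coordinates -/
structure nan_L (H V : ℕ → ℕ → Bool) (i : ℕ) : Prop where
  h0 : ∀ x y, y < 12 → nan_h y x = 0 → H x y = true
  h4 : ∀ x y, y < 12 → nan_h y x = 4 → H x y = false
  v0 : ∀ x y, y < 12 → nan_v i y x = 0 → V x y = true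
  v4 : ∀ x y, y < 12 → nan_v i y x = 4 → V x y = false
  deg : ∀ x y, y + 1 < 12 → (nan_h (y + 1) (x + 1) = 0 ∨ nan_h (y + 1) x = 0 ∨
    nan_v i (y + 1) (x + 1) = 0 ∨ nan_v i y (x + 1) = 0) →
    (H (x + 1) (y + 1)).toNat + (H x (y + 1)).toNat + (V (x + 1) (y + 1)).toNat +
      (V (x + 1) y).toNat = 2

theorem nan_local {s : List Sub} {M : ℕ} {T : ℕ → Bool} {hU vU : ℕ → ℕ → Bool} (hV : VT M T)
    (U : Use (hN s M T) (vN s M T) hU vU) {i : ℕ} (h : T i = true) :
    nan_L (fun x y => hU (5 + 4 * s.length + x) (4 + 6 * i + y))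
      (fun x y => vU (5 + 4 * s.length + x) (4 + 6 * i + y)) i where
  h0 := by
    intro x y hy hc
    rw [← nan_hN (s := s) hV h x y hy] at hc
    exact U.h0 _ _ hc
  h4 := by
    intro x y hy hc
    rw [← nan_hN (s := s) hV h x y hy] at hc
    exact U.h4 _ _ (by omega) (by omega)
  v0 := by
    intro x y hy hc
    rw [← nan_vN (s := s) hV h x y hy] at hc
    exact U.v0 _ _ hc
  v4 := by
    intro x y hy hc
    rw [← nan_vN (s := s) hV h x y hy] at hc
    exact U.v4 _ _ (by omega) (by omega)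
  deg := by
    intro x y hy hc
    rw [← nan_hN (s := s) hV h (x + 1) (y + 1) hy, ← nan_hN (s := s) hV h x (y + 1) hy,
      ← nan_vN (s := s) hV h (x + 1) (y + 1) hy, ← nan_vN (s := s) hV h (x + 1) y (by omega)] at hc
    exact U.deg (5 + 4 * s.length + x) (4 + 6 * i + y) hc

section
variable {H V : ℕ → ℕ → Bool} {i : ℕ}

theorem nan_top (L : nan_L H V i) (h : V 1 2 = true) : V 2 2 = true := by
  have d1 := L.deg 0 2 (by norm_num) (Or.inr (Or.inr (Or.inl rfl)))
  have d2 := L.deg 1 2 (by norm_num) (Or.inr (Or.inr (Or.inl rfl)))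
  have e1 : H 0 3 = false := L.h4 0 3 (by norm_num) rfl
  have e2 : V 1 3 = true := L.v0 1 3 (by norm_num) rfl
  have e3 : V 2 3 = true := L.v0 2 3 (by norm_num) rfl
  have e4 : H 2 3 = false := L.h4 2 3 (by norm_num) rfl
  norm_num only at d1 d2
  rw [e1, e2, h] at d1
  rw [e3, e4] at d2
  simp only [Bool.toNat_true, Bool.toNat_false] at d1 d2
  revert d1 d2
  cases H 1 3 <;> cases V 2 2 <;> simp

theorem nan_bot (L : nan_L H V i) (h : V 1 8 = true) : V 2 8 = true := by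
  have d1 := L.deg 0 8 (by norm_num) (Or.inr (Or.inr (Or.inl rfl)))
  have d2 := L.deg 1 8 (by norm_num) (Or.inr (Or.inr (Or.inl rfl)))
  have e1 : H 0 9 = false := L.h4 0 9 (by norm_num) rfl
  have e2 : V 1 9 = true := L.v0 1 9 (by norm_num) rfl
  have e3 : V 2 9 = true := L.v0 2 9 (by norm_num) rfl
  have e4 : H 2 9 = false := L.h4 2 9 (by norm_num) rfl
  norm_num only at d1 d2
  rw [e1, e2, h] at d1
  rw [e3, e4] at d2
  simp only [Bool.toNat_true, Bool.toNat_false] at d1 d2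
  revert d1 d2
  cases H 1 9 <;> cases V 2 8 <;> simp

theorem nan_chn (L : nan_L H V i) (h : V 5 3 = false) : H 5 8 = true := by
  have d4 := L.deg 4 3 (by norm_num) (Or.inr (Or.inl rfl))
  have d5 := L.deg 4 4 (by norm_num) (Or.inl rfl)
  have d6 := L.deg 4 5 (by norm_num) (Or.inr (Or.inl rfl))
  have d7 := L.deg 4 6 (by norm_num) (Or.inl rfl)
  have d8 := L.deg 4 7 (by norm_num) (Or.inr (Or.inl rfl))
  have a1 : H 5 4 = false := L.h4 5 4 (by norm_num) rfl
  have a2 : H 4 4 = true := L.h0 4 4 (by norm_num) rfl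
  have a3 : H 5 5 = true := L.h0 5 5 (by norm_num) rfl
  have a4 : H 4 5 = false := L.h4 4 5 (by norm_num) rfl
  have a5 : H 5 6 = false := L.h4 5 6 (by norm_num) rfl
  have a6 : H 4 6 = true := L.h0 4 6 (by norm_num) rfl
  have a7 : H 5 7 = true := L.h0 5 7 (by norm_num) rfl
  have a8 : H 4 7 = false := L.h4 4 7 (by norm_num) rfl
  have a9 : V 5 8 = false := L.v4 5 8 (by norm_num) rfl
  have a10 : H 4 8 = true := L.h0 4 8 (by norm_num) rfl
  norm_num only at d4 d5 d6 d7 d8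
  rw [a1, a2, h] at d4
  rw [a3, a4] at d5
  rw [a5, a6] at d6
  rw [a7, a8] at d7
  rw [a9, a10] at d8
  simp only [Bool.toNat_true, Bool.toNat_false] at d4 d5 d6 d7 d8
  revert d4 d5 d6 d7 d8
  cases V 5 4 <;> cases V 5 5 <;> cases V 5 6 <;> cases V 5 7 <;> cases H 5 8 <;> simp

end

/-! ### Cycles -/

/-- `p` and `q` are joined by a used edge -/
def nan_R (hU vU : ℕ → ℕ → Bool) (p q : Pt) : Prop :=
  (q = (p.1 + 1, p.2) ∧ hU p.1 p.2 = true) ∨ (p = (q.1 + 1, q.2) ∧ hU q.1 q.2 = true) ∨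
  (q = (p.1, p.2 + 1) ∧ vU p.1 p.2 = true) ∨ (p = (q.1, q.2 + 1) ∧ vU q.1 q.2 = true)

theorem nan_vert {h v : ℕ → ℕ → ℕ} {hU vU : ℕ → ℕ → Bool} (U : Use h v hU vU) {p q : Pt}
    (r : nan_R hU vU p q) : Vert h v p := by
  obtain ⟨p1, p2⟩ := p
  obtain ⟨q1, q2⟩ := q
  rcases r with ⟨e, r⟩ | ⟨e, r⟩ | ⟨e, r⟩ | ⟨e, r⟩
  · exact (U.hV _ _ r).1
  · rw [e]; exact (U.hV _ _ r).2
  · exact (U.vV _ _ r).1
  · rw [e]; exact (U.vV _ _ r).2

/-- local points -/
def nan_pt (K i : ℕ) (p : ℕ × ℕ) : Pt := (5 + 4 * K + p.1, 4 + 6 * i + p.2)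

theorem nan_pt_inj (K i : ℕ) : Function.Injective (nan_pt K i) := by
  rintro ⟨a, b⟩ ⟨c, d⟩ h
  unfold nan_pt at h
  simp only [Prod.mk.injEq] at h ⊢
  omega

/-- local version of `nan_R` -/
def nan_S (H V : ℕ → ℕ → Bool) (p q : ℕ × ℕ) : Prop :=
  (q = (p.1 + 1, p.2) ∧ H p.1 p.2 = true) ∨ (p = (q.1 + 1, q.2) ∧ H q.1 q.2 = true) ∨
  (q = (p.1, p.2 + 1) ∧ V p.1 p.2 = true) ∨ (p = (q.1, q.2 + 1) ∧ V q.1 q.2 = true)

theorem nan_SR {K i : ℕ} {hU vU : ℕ → ℕ → Bool} {p q : ℕ × ℕ}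
    (h : nan_S (fun x y => hU (5 + 4 * K + x) (4 + 6 * i + y))
      (fun x y => vU (5 + 4 * K + x) (4 + 6 * i + y)) p q) :
    nan_R hU vU (nan_pt K i p) (nan_pt K i q) := by
  rcases h with ⟨e, r⟩ | ⟨e, r⟩ | ⟨e, r⟩ | ⟨e, r⟩
  · exact Or.inl ⟨by rw [e]; rfl, r⟩
  · exact Or.inr (Or.inl ⟨by rw [e]; rfl, r⟩)
  · exact Or.inr (Or.inr (Or.inl ⟨by rw [e]; rfl, r⟩))
  · exact Or.inr (Or.inr (Or.inr ⟨by rw [e]; rfl, r⟩))

theorem nan_cycle (hC : ST_CYC) {s : List Sub} {M : ℕ} {T : ℕ → Bool} {hU vU : ℕ → ℕ → Bool}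
    (U : Use (hN s M T) (vN s M T) hU vU) (i : ℕ) (p0 : ℕ × ℕ) (L : List (ℕ × ℕ))
    (hlen : 2 ≤ L.length) (hnd : (p0 :: L).Nodup)
    (hch : List.IsChain (nan_S (fun x y => hU (5 + 4 * s.length + x) (4 + 6 * i + y))
      (fun x y => vU (5 + 4 * s.length + x) (4 + 6 * i + y))) ((p0 :: L) ++ [p0])) : False := by
  rw [List.isChain_iff_getElem] at hch
  have hl : ((p0 :: L).map (nan_pt s.length i)).length = L.length + 1 := by simp
  have hl2 : ((p0 :: L) ++ [p0]).length = L.length + 2 := by simp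
  have step : ∀ (j : ℕ) (hj : j < ((p0 :: L).map (nan_pt s.length i)).length),
      nan_R hU vU ((p0 :: L).map (nan_pt s.length i))[j]
        (((p0 :: L).map (nan_pt s.length i))[(j + 1) %
          ((p0 :: L).map (nan_pt s.length i)).length]'(Nat.mod_lt _ (by omega))) := by
    intro j hj
    have hj' : j < L.length + 1 := by omega
    have h1 := hch j (by omega)
    have h2 := nan_SR h1
    rw [List.getElem_append_left (by simpa using hj')] at h2
    rw [List.getElem_map, List.getElem_map]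
    rcases Nat.lt_or_ge (j + 1) (L.length + 1) with h3 | h3
    · rw [List.getElem_append_left (by simpa using h3)] at h2
      have h4 : (j + 1) % ((p0 :: L).map (nan_pt s.length i)).length = j + 1 := by
        rw [hl]; exact Nat.mod_eq_of_lt h3
      simp only [h4]
      exact h2
    · have h5 : j = L.length := by omega
      subst h5
      have h4 : (L.length + 1) % ((p0 :: L).map (nan_pt s.length i)).length = 0 := by
        rw [hl]; exact Nat.mod_self _
      simp only [h4]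
      have h6 : ((p0 :: L) ++ [p0])[L.length + 1] = p0 := by simp
      rw [h6] at h2
      exact h2
  have hv : ∀ p ∈ (p0 :: L).map (nan_pt s.length i), Vert (hN s M T) (vN s M T) p := by
    intro p hp
    obtain ⟨j, hj, rfl⟩ := List.getElem_of_mem hp
    exact nan_vert U (step j hj)
  have h13 : Vert (hN s M T) (vN s M T) (1, 3) := by
    left
    show hN s M T 1 3 = 0
    rw [hN_old (by omega)]
    rfl
  have hin := hC _ _ hU vU ((p0 :: L).map (nan_pt s.length i)) U (by rw [hl]; omega)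
    (hnd.map (nan_pt_inj _ _)) (by
      intro p hp
      refine ⟨?_, ?_, hv p hp⟩
      · obtain ⟨q, _, rfl⟩ := List.mem_map.1 hp
        show 1 ≤ 5 + 4 * s.length + q.1
        omega
      · obtain ⟨q, _, rfl⟩ := List.mem_map.1 hp
        show 1 ≤ 4 + 6 * i + q.2
        omega) step (1, 3) h13
  obtain ⟨q, _, hq⟩ := List.mem_map.1 hin
  unfold nan_pt at hq
  simp only [Prod.mk.injEq] at hq
  omega

section
variable {H V : ℕ → ℕ → Bool} {i : ℕ}

theorem nan_right {x y : ℕ} (h : H x y = true) : nan_S H V (x, y) (x + 1, y) := Or.inl ⟨rfl, h⟩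

theorem nan_left {x y : ℕ} (h : H x y = true) : nan_S H V (x + 1, y) (x, y) :=
  Or.inr (Or.inl ⟨rfl, h⟩)

theorem nan_down {x y : ℕ} (h : V x y = true) : nan_S H V (x, y) (x, y + 1) :=
  Or.inr (Or.inr (Or.inl ⟨rfl, h⟩))

theorem nan_up {x y : ℕ} (h : V x y = true) : nan_S H V (x, y + 1) (x, y) :=
  Or.inr (Or.inr (Or.inr ⟨rfl, h⟩))

/-- the upper cycle -/
theorem nan_cyc1 (L : nan_L H V i) (h1 : V 2 2 = true) (h2 : V 5 3 = true) :
    List.IsChain (nan_S H V) (((2, 2) :: [(2, 3), (2, 4), (2, 5), (3, 5), (4, 5), (4, 4), (5, 4),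
      (5, 3), (4, 3), (3, 3), (3, 2)]) ++ [(2, 2)]) := by
  simp only [List.cons_append, List.nil_append, List.isChain_cons_cons, List.isChain_singleton,
    and_true]
  exact ⟨nan_down h1, nan_down (L.v0 2 3 (by norm_num) rfl), nan_down (L.v0 2 4 (by norm_num) rfl),
    nan_right (L.h0 2 5 (by norm_num) rfl), nan_right (L.h0 3 5 (by norm_num) rfl),
    nan_up (L.v0 4 4 (by norm_num) rfl), nan_right (L.h0 4 4 (by norm_num) rfl),
    nan_up h2, nan_left (L.h0 4 3 (by norm_num) rfl), nan_left (L.h0 3 3 (by norm_num) rfl),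
    nan_up (L.v0 3 2 (by norm_num) rfl), nan_left (L.h0 2 2 (by norm_num) rfl)⟩

/-- the lower cycle -/
theorem nan_cyc2 (L : nan_L H V i) (h1 : V 2 8 = true) (h2 : H 5 8 = true) :
    List.IsChain (nan_S H V) (((2, 8) :: [(2, 9), (2, 10), (2, 11), (3, 11), (4, 11), (5, 11),
      (5, 10), (5, 9), (6, 9), (6, 8), (5, 8), (4, 8), (4, 9), (3, 9), (3, 8)]) ++ [(2, 8)]) := by
  simp only [List.cons_append, List.nil_append, List.isChain_cons_cons, List.isChain_singleton,
    and_true]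
  exact ⟨nan_down h1, nan_down (L.v0 2 9 (by norm_num) rfl),
    nan_down (L.v0 2 10 (by norm_num) rfl),
    nan_right (L.h0 2 11 (by norm_num) rfl), nan_right (L.h0 3 11 (by norm_num) rfl),
    nan_right (L.h0 4 11 (by norm_num) rfl), nan_up (L.v0 5 10 (by norm_num) rfl),
    nan_up (L.v0 5 9 (by norm_num) rfl), nan_right (L.h0 5 9 (by norm_num) rfl),
    nan_up (L.v0 6 8 (by norm_num) rfl), nan_left h2, nan_left (L.h0 4 8 (by norm_num) rfl),
    nan_down (L.v0 4 8 (by norm_num) rfl), nan_left (L.h0 3 9 (by norm_num) rfl),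
    nan_up (L.v0 3 8 (by norm_num) rfl), nan_left (L.h0 2 8 (by norm_num) rfl)⟩

end

theorem st_NAN (hC : ST_CYC) : ST_NAN := by
  intro s M T hU vU hV U i hT ⟨s1, s2⟩
  have L := nan_local (s := s) hV U hT
  have t1 : vU (5 + 4 * s.length + 1) (4 + 6 * i + 2) = true := by
    have e : 5 + 4 * s.length + 1 = 6 + 4 * s.length := by omega
    have e2 : 4 + 6 * i + 2 = 6 + 6 * i := by omega
    rw [e, e2]
    exact s1
  have t2 : vU (5 + 4 * s.length + 1) (4 + 6 * i + 8) = true := by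
    have e : 5 + 4 * s.length + 1 = 6 + 4 * s.length := by omega
    have e2 : 4 + 6 * i + 8 = 6 + 6 * (i + 1) := by omega
    rw [e, e2]
    exact s2
  have u1 := nan_top L t1
  have u2 := nan_bot L t2
  cases h : vU (5 + 4 * s.length + 5) (4 + 6 * i + 3) with
  | true =>
    exact nan_cycle hC U i _ _ (by simp) (by decide) (nan_cyc1 L u1 h)
  | false =>
    exact nan_cycle hC U i _ _ (by simp) (by decide) (nan_cyc2 L u2 (nan_chn L h))

end Pool.Agent.Helper96.SE
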